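import Pool.Agent.Y996.TL.Stm
import Pool.Agent.H492C.U1

/-! Project TL, task B33: the case `(3,3)` of the uniqueness lemma. -/

set_option autoImplicit false

namespace Pool.Agent.Y328.TL

open Pool.Agent.H988R2.Perc hiding X
open Pool.Agent.H492C Pool.Agent.H492C.U1
open Pool.Agent.Y996.TL
open Finset Polynomial

/-- a function of one variable which is (up to a power) a polynomial and vanishes generically -/
theorem vanish {g : List ℂ} (hg : Gen g) {G : ℂ → ℂ} {k : ℕ} {P : ℂ[X]}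
    (hP : ∀ t, t ≠ 0 → P.eval t = t ^ k * G t) (h : ∀ t, Gen (t :: g) → G t = 0) :
    ∀ t, t ≠ 0 → G t = 0 := by
  have hzero : P * Qp g = 0 := by
    apply Polynomial.funext
    intro x
    rw [eval_mul, eval_zero]
    by_cases hx : (Qp g).eval x = 0
    · rw [hx, mul_zero]
    · have hgx := Gen_of_Qp hg hx
      rw [hP x hgx.1, h x hgx, mul_zero, zero_mul]
  have hP0 : P = 0 := by
    rcases mul_eq_zero.1 hzero with h | h
    · exact h
    · exact absurd h (Qp_ne g)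
  intro t ht
  have h2 := hP t ht
  rw [hP0, eval_zero] at h2
  rcases mul_eq_zero.1 h2.symm with h | h
  · exact absurd h (pow_ne_zero _ ht)
  · exact h

/-- a polynomial with too many roots, `0` and a list -/
theorem zero_of_list {P : ℂ[X]} {L : List ℂ} (hL : L.Nodup) (h0 : (0:ℂ) ∉ L)
    (hP0 : P.eval 0 = 0) (hr : ∀ t ∈ L, P.eval t = 0) (hd : P.natDegree ≤ L.length) : P = 0 := by
  apply Polynomial.eq_zero_of_natDegree_lt_card_of_eval_eq_zero' P (insert 0 L.toFinset)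
  · intro t ht
    rcases Finset.mem_insert.1 ht with rfl | ht
    · exact hP0
    · exact hr t (List.mem_toFinset.1 ht)
  · rw [Finset.card_insert_of_notMem (by rw [List.mem_toFinset]; exact h0),
      List.toFinset_card_of_nodup hL]
    omega

theorem G_of {G : ℂ → ℂ} {k : ℕ} {P : ℂ[X]}
    (hP : ∀ t, t ≠ 0 → P.eval t = t ^ k * G t) (h : P = 0) : ∀ t, t ≠ 0 → G t = 0 := by
  intro t ht
  have h2 := hP t ht
  rw [h, eval_zero] at h2
  rcases mul_eq_zero.1 h2.symm with h | h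
  · exact absurd h (pow_ne_zero _ ht)
  · exact h

theorem not_mem_flat {g : List ℂ} (hg : Gen g) {c : ℂ} (hc : c ^ 3 = 1) :
    c ∉ g.flatMap pts4 := by
  intro h
  obtain ⟨z, hz, ht⟩ := List.mem_flatMap.1 h
  have hz6 : z ^ 6 ≠ 1 := by
    clear h ht
    induction g with
    | nil => simp at hz
    | cons s g ih =>
      rcases List.mem_cons.1 hz with rfl | hz
      · exact hg.2.1
      · exact ih hg.2.2.2 hz
  apply hz6
  rcases cube_pts4 ht with h1 | h1
  · rw [hc] at h1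
    calc z ^ 6 = (z ^ 3) ^ 2 := by ring
      _ = 1 := by rw [← h1, one_pow]
  · rw [hc] at h1
    have h2 : z ^ 3 = 1 := inv_eq_one.mp h1.symm
    calc z ^ 6 = (z ^ 3) ^ 2 := by ring
      _ = 1 := by rw [h2, one_pow]

/-- symmetric functions of three variables -/
theorem three (F : ℂ → ℂ → ℂ → ℂ)
    (sw1 : ∀ a b c, a ≠ 0 → b ≠ 0 → c ≠ 0 → F a b c = F b a c)
    (sw2 : ∀ a b c, a ≠ 0 → b ≠ 0 → c ≠ 0 → F a b c = F a c b)
    (inv : ∀ t a b, t ≠ 0 → a ≠ 0 → b ≠ 0 → F t a b = 0 → F t⁻¹ a b = 0)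
    (pair : ∀ x c, x ≠ 0 → c ≠ 0 → F x (q^2 * x) c = 0)
    (poly : ∀ a b, a ≠ 0 → b ≠ 0 → ∃ P : ℂ[X], P.natDegree ≤ 10 ∧
      (∀ t, t ≠ 0 → P.eval t = t^2 * F t a b) ∧ P.eval 0 = 0)
    (extra : ∀ a b, a ≠ 0 → b ≠ 0 → F q a b = 0) :
    ∀ a b c, a ≠ 0 → b ≠ 0 → c ≠ 0 → F a b c = 0 := by
  have hq := q_ne_zero
  have hq2 : q^2 ≠ 0 := pow_ne_zero 2 hq
  -- the eight zeros
  have key1 : ∀ z b : ℂ, z ≠ 0 → b ≠ 0 → F (q * z) z b = 0 ∧ F (q^2 * z) z b = 0 := by
    intro z b hz hb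
    constructor
    · have h := pair (q * z) b (mul_ne_zero hq hz) hb
      rwa [show q^2 * (q * z) = q^3 * z by ring, q_cube, one_mul] at h
    · rw [sw1 _ _ _ (mul_ne_zero hq2 hz) hz hb]
      exact pair z b hz hb
  have key2 : ∀ z b : ℂ, z ≠ 0 → b ≠ 0 → ∀ t ∈ pts4 z, t ≠ 0 ∧ F t z b = 0 := by
    intro z b hz hb t ht
    have hk := key1 z b hz hb
    unfold pts4 at ht
    simp only [List.mem_cons, List.not_mem_nil, or_false] at ht
    rcases ht with rfl | rfl | rfl | rfl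
    · exact ⟨mul_ne_zero hq hz, hk.1⟩
    · exact ⟨mul_ne_zero hq2 hz, hk.2⟩
    · exact ⟨inv_ne_zero (mul_ne_zero hq hz), inv _ _ _ (mul_ne_zero hq hz) hz hb hk.1⟩
    · exact ⟨inv_ne_zero (mul_ne_zero hq2 hz), inv _ _ _ (mul_ne_zero hq2 hz) hz hb hk.2⟩
  have gen2 : ∀ a b : ℂ, Gen [a, b] → ∀ t, t ≠ 0 → F t a b = 0 := by
    intro a b hg
    have ha := hg.ne_zero a (by simp)
    have hb := hg.ne_zero b (by simp)
    obtain ⟨P, hPd, hPe, hP0⟩ := poly a b ha hb
    refine G_of hPe (zero_of_list (L := q :: q^2 :: [a, b].flatMap pts4) ?_ ?_ hP0 ?_ ?_)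
    · rw [List.nodup_cons, List.nodup_cons]
      refine ⟨?_, not_mem_flat hg cube_q2, nodup_flat hg⟩
      intro h
      rcases List.mem_cons.1 h with h | h
      · exact q_ne_q2 h
      · exact not_mem_flat hg q_cube h
    · intro h
      rcases List.mem_cons.1 h with h | h
      · exact hq h.symm
      · rcases List.mem_cons.1 h with h | h
        · exact hq2 h.symm
        · exact zero_not_mem_flat hg.ne_zero h
    · intro t ht
      have : t ≠ 0 ∧ F t a b = 0 := by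
        rcases List.mem_cons.1 ht with rfl | ht
        · exact ⟨hq, extra a b ha hb⟩
        · rcases List.mem_cons.1 ht with rfl | ht
          · refine ⟨hq2, ?_⟩
            have e : q^2 = q⁻¹ := by
              exact eq_inv_of_mul_eq_one_left (by rw [← pow_succ, q_cube])
            rw [e]
            exact inv _ _ _ hq ha hb (extra a b ha hb)
          · obtain ⟨z, hz, hzt⟩ := List.mem_flatMap.1 ht
            simp only [List.mem_cons, List.not_mem_nil, or_false] at hz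
            rcases hz with rfl | rfl
            · exact key2 z b ha hb t hzt
            · obtain ⟨h1, h2⟩ := key2 z a hb ha t hzt
              exact ⟨h1, by rw [sw2 _ _ _ h1 ha hb]; exact h2⟩
      rw [hPe t this.1, this.2, mul_zero]
    · rw [List.length_cons, List.length_cons, length_flat]
      simpa using hPd
  have gen1 : ∀ b : ℂ, Gen [b] → ∀ a, a ≠ 0 → ∀ t, t ≠ 0 → F t a b = 0 := by
    intro b hg a ha t ht
    have hb := hg.ne_zero b (by simp)
    obtain ⟨P, -, hPe, -⟩ := poly t b ht hb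
    have h := vanish (g := [b]) hg (G := fun s => F s t b) hPe (by
      intro s hs
      have hs0 := hs.1
      show F s t b = 0
      rw [sw1 _ _ _ hs0 ht hb]
      exact gen2 s b hs t ht) a ha
    rw [sw1 _ _ _ ht ha hb]
    exact h
  intro t a b ht ha hb
  obtain ⟨P, -, hPe, -⟩ := poly t a ht ha
  have h := vanish (g := []) trivial (G := fun s => F s t a) hPe (by
    intro s hs
    have hs0 := hs.1
    show F s t a = 0
    rw [sw1 _ _ _ hs0 ht ha, sw2 _ _ _ ht hs0 ha]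
    exact gen1 s hs a ha t ht) b hb
  have h' : F b t a = 0 := h
  rw [sw1 _ _ _ hb ht ha, sw2 _ _ _ ht hb ha] at h'
  exact h'

theorem b33 : S_B33 := by
  intro D hD h13 h31 hsp
  have hq := q_ne_zero
  have hq2 : q^2 ≠ 0 := pow_ne_zero 2 hq
  have nz : ∀ {L : List ℂ}, (∀ z ∈ L, z ≠ 0) → ∀ {a : ℂ}, a ≠ 0 → ∀ z ∈ a :: L, z ≠ 0 := by
    intro L hL a ha z hz
    rcases List.mem_cons.1 hz with rfl | hz
    · exact ha
    · exact hL z hz
  have nn : ∀ z ∈ ([] : List ℂ), z ≠ 0 := fun z hz => absurd hz (by simp)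
  have o1 : ∀ a : ℂ, Odd [a].length := fun a => by simp
  have o3 : ∀ a b c : ℂ, Odd [a, b, c].length := fun a b c => ⟨1, by simp⟩
  have e2 : ∀ a b : ℂ, Even [a, b].length := fun a b => ⟨1, by simp⟩
  -- the moves
  have swA1 : ∀ a b c u v w : ℂ, a ≠ 0 → b ≠ 0 → c ≠ 0 → u ≠ 0 → v ≠ 0 → w ≠ 0 →
      D [a, b, c] [u, v, w] = D [b, a, c] [u, v, w] := by
    intro a b c u v w ha hb hc hu hv hw
    have := hD.swA [] [c] [u, v, w] b a (by simp) (o3 _ _ _) hb ha
      (nz (nz (nz (nz nn hw) hv) hu) hc)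
    simpa using this
  have swA2 : ∀ a b c u v w : ℂ, a ≠ 0 → b ≠ 0 → c ≠ 0 → u ≠ 0 → v ≠ 0 → w ≠ 0 →
      D [a, b, c] [u, v, w] = D [a, c, b] [u, v, w] := by
    intro a b c u v w ha hb hc hu hv hw
    have := hD.swA [a] [] [u, v, w] c b (by simp) (o3 _ _ _) hc hb
      (nz (nz (nz (nz nn hw) hv) hu) ha)
    simpa using this
  have swB1 : ∀ a b c u v w : ℂ, a ≠ 0 → b ≠ 0 → c ≠ 0 → u ≠ 0 → v ≠ 0 → w ≠ 0 →
      D [a, b, c] [u, v, w] = D [a, b, c] [v, u, w] := by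
    intro a b c u v w ha hb hc hu hv hw
    have := hD.swB [a, b, c] [] [w] v u (o3 _ _ _) (by simp) hv hu
      (nz (nz (nz (nz nn hw) hc) hb) ha)
    simpa using this
  have swB2 : ∀ a b c u v w : ℂ, a ≠ 0 → b ≠ 0 → c ≠ 0 → u ≠ 0 → v ≠ 0 → w ≠ 0 →
      D [a, b, c] [u, v, w] = D [a, b, c] [u, w, v] := by
    intro a b c u v w ha hb hc hu hv hw
    have := hD.swB [a, b, c] [u] [] w v (o3 _ _ _) (by simp) hw hv
      (nz (nz (nz (nz nn hu) hc) hb) ha)
    simpa using this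
  -- rotation of the second group
  have rotB : ∀ a b c u v w : ℂ, a ≠ 0 → b ≠ 0 → c ≠ 0 → u ≠ 0 → v ≠ 0 → w ≠ 0 →
      D [a, b, c] [u, v, w] = D [a, b, c] [v, w, u] := by
    intro a b c u v w ha hb hc hu hv hw
    rw [swB1 _ _ _ _ _ _ ha hb hc hu hv hw, swB2 _ _ _ _ _ _ ha hb hc hv hu hw]
  -- inversion of the first entry of the second group
  have invB' : ∀ a b c t v w : ℂ, a ≠ 0 → b ≠ 0 → c ≠ 0 → t ≠ 0 → v ≠ 0 → w ≠ 0 →
      D [a, b, c] [t, v, w] = 0 → D [a, b, c] [t⁻¹, v, w] = 0 := by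
    intro a b c t v w ha hb hc ht hv hw h
    have h1 := hD.invB [a, b, c] [v, w] t (o3 _ _ _) (e2 _ _) ht
      (nz (nz (nz (nz (nz nn hw) hv) hc) hb) ha)
    have h2 : D [a, b, c] [v, w, t] = t ^ ([a, b, c].length + 3) * D [a, b, c] [v, w, t⁻¹] := by
      simpa using h1
    rw [← rotB _ _ _ _ _ _ ha hb hc ht hv hw, h] at h2
    rw [rotB _ _ _ _ _ _ ha hb hc (inv_ne_zero ht) hv hw]
    rcases mul_eq_zero.1 h2.symm with h3 | h3
    · exact absurd h3 (pow_ne_zero _ ht)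
    · exact h3
  have invA' : ∀ t b c u v w : ℂ, t ≠ 0 → b ≠ 0 → c ≠ 0 → u ≠ 0 → v ≠ 0 → w ≠ 0 →
      D [t, b, c] [u, v, w] = 0 → D [t⁻¹, b, c] [u, v, w] = 0 := by
    intro t b c u v w ht hb hc hu hv hw h
    have h1 := hD.invA [b, c] [u, v, w] t (e2 _ _) (o3 _ _ _) ht
      (nz (nz (nz (nz (nz nn hw) hv) hu) hc) hb)
    rw [h] at h1
    rcases mul_eq_zero.1 h1.symm with h3 | h3
    · exact absurd h3 (pow_ne_zero _ ht)
    · exact h3
  have pairB' : ∀ a b c x w : ℂ, a ≠ 0 → b ≠ 0 → c ≠ 0 → x ≠ 0 → w ≠ 0 →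
      D [a, b, c] [x, q^2 * x, w] = 0 := by
    intro a b c x w ha hb hc hx hw
    rw [hD.pairB [a, b, c] [w] x (o3 _ _ _) (o1 _) hx (nz (nz (nz (nz nn hw) hc) hb) ha),
      h31 [a, b, c] [w] rfl rfl (nz (nz (nz (nz nn hw) hc) hb) ha), mul_zero]
  have pairA' : ∀ x c u v w : ℂ, x ≠ 0 → c ≠ 0 → u ≠ 0 → v ≠ 0 → w ≠ 0 →
      D [x, q^2 * x, c] [u, v, w] = 0 := by
    intro x c u v w hx hc hu hv hw
    rw [hD.pairA [c] [u, v, w] x (o1 _) (o3 _ _ _) hx (nz (nz (nz (nz nn hw) hv) hu) hc),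
      h13 [c] [u, v, w] rfl rfl (nz (nz (nz (nz nn hw) hv) hu) hc), mul_zero]
  have polyB' : ∀ a b c v w : ℂ, a ≠ 0 → b ≠ 0 → c ≠ 0 → v ≠ 0 → w ≠ 0 → ∃ P : ℂ[X],
      P.natDegree ≤ 10 ∧ (∀ t, t ≠ 0 → P.eval t = t^2 * D [a, b, c] [t, v, w]) ∧
        P.eval 0 = 0 := by
    intro a b c v w ha hb hc hv hw
    obtain ⟨P, h1, h2, h3⟩ := hD.polyB [a, b, c] [v, w] (o3 _ _ _) (e2 _ _)
      (nz (nz (nz (nz (nz nn hw) hv) hc) hb) ha)
    refine ⟨P, by simpa using h1, ?_, h3⟩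
    intro t ht
    rw [rotB _ _ _ _ _ _ ha hb hc ht hv hw]
    have := h2 t ht
    simpa using this
  have polyA' : ∀ b c u v w : ℂ, b ≠ 0 → c ≠ 0 → u ≠ 0 → v ≠ 0 → w ≠ 0 → ∃ P : ℂ[X],
      P.natDegree ≤ 10 ∧ (∀ t, t ≠ 0 → P.eval t = t^2 * D [t, b, c] [u, v, w]) ∧
        P.eval 0 = 0 := by
    intro b c u v w hb hc hu hv hw
    obtain ⟨P, h1, h2, h3⟩ := hD.polyA [b, c] [u, v, w] (e2 _ _) (o3 _ _ _)
      (nz (nz (nz (nz (nz nn hw) hv) hu) hc) hb)
    refine ⟨P, by simpa using h1, ?_, h3⟩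
    intro t ht
    have := h2 t ht
    simpa using this
  -- step 1, generic
  have s1g : ∀ w x y : ℂ, Gen [w, x, y] → ∀ t, t ≠ 0 → D [x, y, q] [t, q^2, w] = 0 := by
    intro w x y hg
    have hw := hg.ne_zero w (by simp)
    have hx := hg.ne_zero x (by simp)
    have hy := hg.ne_zero y (by simp)
    obtain ⟨P, hPd, hPe, hP0⟩ := polyB' x y q (q^2) w hx hy hq hq2 hw
    -- zeros
    have z1 : D [x, y, q] [q, q^2, w] = 0 := by
      rw [swB1 _ _ _ _ _ _ hx hy hq hq hq2 hw]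
      have h := pairB' x y q (q^2) w hx hy hq hq2 hw
      rwa [show q^2 * q^2 = q^3 * q by ring, q_cube, one_mul] at h
    have z2 : D [x, y, q] [q^2, q^2, w] = 0 := by
      have e : q^2 = q⁻¹ := by
        exact eq_inv_of_mul_eq_one_left (by rw [← pow_succ, q_cube])
      have h := invB' x y q q (q^2) w hx hy hq hq hq2 hw z1
      rwa [← e] at h
    have z3 : ∀ t ∈ pts4 w, t ≠ 0 ∧ D [x, y, q] [t, q^2, w] = 0 := by
      have k1 : D [x, y, q] [q * w, q^2, w] = 0 := by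
        have h := pairB' x y q (q * w) (q^2) hx hy hq (mul_ne_zero hq hw) hq2
        rw [show q^2 * (q * w) = q^3 * w by ring, q_cube, one_mul] at h
        rwa [swB2 _ _ _ _ _ _ hx hy hq (mul_ne_zero hq hw) hw hq2] at h
      have k2 : D [x, y, q] [q^2 * w, q^2, w] = 0 := by
        have h := pairB' x y q w (q^2) hx hy hq hw hq2
        rwa [rotB _ _ _ _ _ _ hx hy hq hw (mul_ne_zero hq2 hw) hq2] at h
      intro t ht
      unfold pts4 at ht
      simp only [List.mem_cons, List.not_mem_nil, or_false] at ht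
      rcases ht with rfl | rfl | rfl | rfl
      · exact ⟨mul_ne_zero hq hw, k1⟩
      · exact ⟨mul_ne_zero hq2 hw, k2⟩
      · exact ⟨inv_ne_zero (mul_ne_zero hq hw),
          invB' _ _ _ _ _ _ hx hy hq (mul_ne_zero hq hw) hq2 hw k1⟩
      · exact ⟨inv_ne_zero (mul_ne_zero hq2 hw),
          invB' _ _ _ _ _ _ hx hy hq (mul_ne_zero hq2 hw) hq2 hw k2⟩
    have z4 : D [x, y, q] [q^2 * y, q^2, w] = 0 := by
      rw [swB1 _ _ _ _ _ _ hx hy hq (mul_ne_zero hq2 hy) hq2 hw]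
      exact hsp x y w hx hy hw
    have z5 : D [x, y, q] [q^2 * x, q^2, w] = 0 := by
      rw [swB1 _ _ _ _ _ _ hx hy hq (mul_ne_zero hq2 hx) hq2 hw,
        swA1 _ _ _ _ _ _ hx hy hq hq2 (mul_ne_zero hq2 hx) hw]
      exact hsp y x w hy hx hw
    have z4' := invB' _ _ _ _ _ _ hx hy hq (mul_ne_zero hq2 hy) hq2 hw z4
    have z5' := invB' _ _ _ _ _ _ hx hy hq (mul_ne_zero hq2 hx) hq2 hw z5
    have hsub : List.Sublist (pts4 w ++ ([q^2 * x, (q^2 * x)⁻¹] ++ [q^2 * y, (q^2 * y)⁻¹]))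
        ([w, x, y].flatMap pts4) := by
      have e : [w, x, y].flatMap pts4 = pts4 w ++ (pts4 x ++ pts4 y) := by
        simp [List.flatMap_cons]
      rw [e]
      have hs : ∀ z : ℂ, List.Sublist [q^2 * z, (q^2 * z)⁻¹] (pts4 z) := by
        intro z
        unfold pts4
        exact (List.Sublist.cons_cons _ (List.Sublist.cons _ (List.Sublist.refl _))).cons _
      exact (List.Sublist.refl _).append ((hs x).append (hs y))
    refine G_of hPe (zero_of_list (L := q :: q^2 ::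
      (pts4 w ++ ([q^2 * x, (q^2 * x)⁻¹] ++ [q^2 * y, (q^2 * y)⁻¹]))) ?_ ?_ hP0 ?_ ?_)
    · rw [List.nodup_cons, List.nodup_cons]
      refine ⟨?_, fun h => not_mem_flat hg cube_q2 (hsub.subset h), (nodup_flat hg).sublist hsub⟩
      intro h
      rcases List.mem_cons.1 h with h | h
      · exact q_ne_q2 h
      · exact not_mem_flat hg q_cube (hsub.subset h)
    · intro h
      rcases List.mem_cons.1 h with h | h
      · exact hq h.symm
      · rcases List.mem_cons.1 h with h | h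
        · exact hq2 h.symm
        · exact zero_not_mem_flat hg.ne_zero (hsub.subset h)
    · intro t ht
      have : t ≠ 0 ∧ D [x, y, q] [t, q^2, w] = 0 := by
        rcases List.mem_cons.1 ht with rfl | ht
        · exact ⟨hq, z1⟩
        · rcases List.mem_cons.1 ht with rfl | ht
          · exact ⟨hq2, z2⟩
          · rcases List.mem_append.1 ht with ht | ht
            · exact z3 t ht
            · simp only [List.cons_append, List.nil_append, List.mem_cons, List.not_mem_nil,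
                or_false] at ht
              rcases ht with rfl | rfl | rfl | rfl
              · exact ⟨mul_ne_zero hq2 hx, z5⟩
              · exact ⟨inv_ne_zero (mul_ne_zero hq2 hx), z5'⟩
              · exact ⟨mul_ne_zero hq2 hy, z4⟩
              · exact ⟨inv_ne_zero (mul_ne_zero hq2 hy), z4'⟩
      rw [hPe t this.1, this.2, mul_zero]
    · simpa [pts4] using hPd
  -- step 1
  have s1a : ∀ x y : ℂ, Gen [x, y] → ∀ w t, w ≠ 0 → t ≠ 0 → D [x, y, q] [t, q^2, w] = 0 := by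
    intro x y hg w t hw ht
    have hx := hg.ne_zero x (by simp)
    have hy := hg.ne_zero y (by simp)
    have mv : ∀ s : ℂ, s ≠ 0 → D [x, y, q] [s, t, q^2] = D [x, y, q] [t, q^2, s] :=
      fun s hs => rotB _ _ _ _ _ _ hx hy hq hs ht hq2
    obtain ⟨P, -, hPe, -⟩ := polyB' x y q t (q^2) hx hy hq ht hq2
    have h := vanish (g := [x, y]) hg (G := fun s => D [x, y, q] [s, t, q^2]) hPe (by
      intro s hs
      show D [x, y, q] [s, t, q^2] = 0
      rw [mv s hs.1]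
      exact s1g s x y hs t ht) w hw
    rw [← mv w hw]
    exact h
  have s1b : ∀ y : ℂ, Gen [y] → ∀ x w t, x ≠ 0 → w ≠ 0 → t ≠ 0 →
      D [x, y, q] [t, q^2, w] = 0 := by
    intro y hg x w t hx hw ht
    have hy := hg.ne_zero y (by simp)
    obtain ⟨P, -, hPe, -⟩ := polyA' y q t (q^2) w hy hq ht hq2 hw
    exact vanish (g := [y]) hg (G := fun s => D [s, y, q] [t, q^2, w]) hPe
      (fun s hs => s1a s y hs w t hw ht) x hx
  have s1 : ∀ x y w t : ℂ, x ≠ 0 → y ≠ 0 → w ≠ 0 → t ≠ 0 → D [x, y, q] [t, q^2, w] = 0 := by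
    intro x y w t hx hy hw ht
    obtain ⟨P, -, hPe, -⟩ := polyA' x q t (q^2) w hx hq ht hq2 hw
    have h := vanish (g := []) trivial (G := fun s => D [s, x, q] [t, q^2, w]) hPe (by
      intro s hs
      show D [s, x, q] [t, q^2, w] = 0
      rw [swA1 _ _ _ _ _ _ hs.1 hx hq ht hq2 hw]
      exact s1b s hs x w t hx hw ht) y hy
    have h' : D [y, x, q] [t, q^2, w] = 0 := h
    rwa [swA1 _ _ _ _ _ _ hy hx hq ht hq2 hw] at h'
  -- step 2
  have s2 : ∀ x y u v w : ℂ, x ≠ 0 → y ≠ 0 → u ≠ 0 → v ≠ 0 → w ≠ 0 →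
      D [x, y, q] [u, v, w] = 0 := by
    intro x y u v w hx hy hu hv hw
    refine three (fun a b c => D [x, y, q] [a, b, c]) ?_ ?_ ?_ ?_ ?_ ?_ u v w hu hv hw
    · intro a b c ha hb hc
      exact swB1 _ _ _ _ _ _ hx hy hq ha hb hc
    · intro a b c ha hb hc
      exact swB2 _ _ _ _ _ _ hx hy hq ha hb hc
    · intro t a b ht ha hb h
      exact invB' _ _ _ _ _ _ hx hy hq ht ha hb h
    · intro z c hz hc
      exact pairB' _ _ _ _ _ hx hy hq hz hc
    · intro a b ha hb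
      exact polyB' _ _ _ _ _ hx hy hq ha hb
    · intro a b ha hb
      show D [x, y, q] [q, a, b] = 0
      have h1 : D [x, y, q] [q^2, a, b] = 0 := by
        rw [swB1 _ _ _ _ _ _ hx hy hq hq2 ha hb]
        exact s1 x y b a hx hy hb ha
      have h2 := invB' _ _ _ _ _ _ hx hy hq hq2 ha hb h1
      have e : (q^2)⁻¹ = q := by
        exact inv_eq_of_mul_eq_one_right (by rw [← pow_succ, q_cube])
      rwa [e] at h2
  -- step 3
  have s3 : ∀ x y z u v w : ℂ, x ≠ 0 → y ≠ 0 → z ≠ 0 → u ≠ 0 → v ≠ 0 → w ≠ 0 →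
      D [x, y, z] [u, v, w] = 0 := by
    intro x y z u v w hx hy hz hu hv hw
    refine three (fun a b c => D [a, b, c] [u, v, w]) ?_ ?_ ?_ ?_ ?_ ?_ x y z hx hy hz
    · intro a b c ha hb hc
      exact swA1 _ _ _ _ _ _ ha hb hc hu hv hw
    · intro a b c ha hb hc
      exact swA2 _ _ _ _ _ _ ha hb hc hu hv hw
    · intro t a b ht ha hb h
      exact invA' _ _ _ _ _ _ ht ha hb hu hv hw h
    · intro s c hs hc
      exact pairA' _ _ _ _ _ hs hc hu hv hw
    · intro a b ha hb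
      exact polyA' _ _ _ _ _ ha hb hu hv hw
    · intro a b ha hb
      show D [q, a, b] [u, v, w] = 0
      rw [swA1 _ _ _ _ _ _ hq ha hb hu hv hw, swA2 _ _ _ _ _ _ ha hq hb hu hv hw]
      exact s2 a b u v w ha hb hu hv hw
  intro A B hA hB h0
  obtain ⟨x, y, z, rfl⟩ := List.length_eq_three.1 hA
  obtain ⟨u, v, w, rfl⟩ := List.length_eq_three.1 hB
  exact s3 x y z u v w (h0 x (by simp)) (h0 y (by simp)) (h0 z (by simp)) (h0 u (by simp))
    (h0 v (by simp)) (h0 w (by simp))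

end Pool.Agent.Y328.TL
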