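import Pool.Agent.Y996.TL.Stm

/-! Project TL, task C67: the window graph and the infinite slit strip (adapted from helper733's
and helper85's files). -/

set_option autoImplicit false

namespace Pool.Agent.Y328.TL

open Pool.Agent.H988R2.Perc hiding X
open Pool.Agent.H980R3.Slit (GP E0 E1 E2)
open Pool.Agent.Y996.TL
open Relation

theorem gp_gadj {a b M : ℕ} {ω : Conf} {p p' : ℤ × ℤ} (h : FF5 a b M ω p p') :
    (GAdj (a+b+3) M ω p p' ∧ ((p.1 + p.2) % 2 = 1 ∧ (p'.1 + p'.2) % 2 = 1 ∧ 0 ≤ p.1 ∧ 0 ≤ p'.1 ∧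
      p.1 ≤ a + b + 3 ∧ p'.1 ≤ a + b + 3) ∧
      ¬ ((a ≤ p.1 ∧ p.1 ≤ a + 3 ∧ 0 ≤ p.2) ∧ (a ≤ p'.1 ∧ p'.1 ≤ a + 3 ∧ 0 ≤ p'.2))) ∨
    (p.1 = a ∧ p'.1 = a ∧ 0 ≤ p.2 ∧ 0 ≤ p'.2) ∨ (p.1 = a + b + 3 ∧ p'.1 = a + b + 3) := by
  rcases h with (h | h) | (h | h) | (h | h)
  · left
    obtain ⟨i, r, h1, h2, h3, h4, h5, h6⟩ := h
    push_cast at h2
    refine ⟨⟨i, r, h1, by push_cast; omega, h3, by omega, h5, h6⟩, ?_⟩
    rcases h6 with ⟨h6, rfl, rfl⟩ | ⟨h6, rfl, rfl⟩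
    · dsimp only
      refine ⟨⟨by omega, by omega, by omega, by omega, by omega, by omega⟩, by omega⟩
    · dsimp only
      refine ⟨⟨by omega, by omega, by omega, by omega, by omega, by omega⟩, by omega⟩
  · push_cast at h
    exact Or.inr (Or.inr ⟨by omega, by omega⟩)
  · left
    obtain ⟨i, r, h1, h2, h3, h4, h5, h6⟩ := h
    refine ⟨⟨i, r, h1, by push_cast; omega, by omega, by omega, h5, h6⟩, ?_⟩
    rcases h6 with ⟨h6, rfl, rfl⟩ | ⟨h6, rfl, rfl⟩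
    · dsimp only
      refine ⟨⟨by omega, by omega, by omega, by omega, by omega, by omega⟩, by omega⟩
    · dsimp only
      refine ⟨⟨by omega, by omega, by omega, by omega, by omega, by omega⟩, by omega⟩
  · exact Or.inr (Or.inl h)
  · left
    obtain ⟨i, r, h1, h2, h3, h4, h5, h6⟩ := h
    push_cast at h1 h2
    refine ⟨⟨i, r, by omega, by push_cast; omega, by omega, by omega, h5, h6⟩, ?_⟩
    rcases h6 with ⟨h6, rfl, rfl⟩ | ⟨h6, rfl, rfl⟩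
    · dsimp only
      refine ⟨⟨by omega, by omega, by omega, by omega, by omega, by omega⟩, by omega⟩
    · dsimp only
      refine ⟨⟨by omega, by omega, by omega, by omega, by omega, by omega⟩, by omega⟩
  · push_cast at h
    exact Or.inr (Or.inr ⟨by omega, by omega⟩)

theorem toZ_sum (p : ℤ × ℤ) (h : (p.1 + p.2) % 2 = 1) :
    (T22.toZ p).1 + (T22.toZ p).2 = p.2 + 1 := by
  unfold T22.toZ; dsimp only; omega

theorem tip_eq (a : ℕ) (ha : Odd a) : tip5 a = T22.toZ ((a : ℤ) + 2, 0) := by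
  obtain ⟨c, rfl⟩ := ha
  unfold tip5 T22.toZ
  ext
  · dsimp only; omega
  · dsimp only; omega

/-- one step of an open edge inside the slit strip -/
theorem adj_of {a b : ℕ} {ω : Conf} {p p' : ℤ × ℤ} (ho : OpenAdj ω (T22.toZ p) (T22.toZ p'))
    (hf : (p.1 + p.2) % 2 = 1 ∧ (p'.1 + p'.2) % 2 = 1 ∧ 0 ≤ p.1 ∧ 0 ≤ p'.1 ∧
      p.1 ≤ a + b + 3 ∧ p'.1 ≤ a + b + 3)
    (hs : ¬ ((a ≤ p.1 ∧ p.1 ≤ a + 3 ∧ 0 ≤ p.2) ∧ (a ≤ p'.1 ∧ p'.1 ≤ a + 3 ∧ 0 ≤ p'.2))) :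
    Adj5 a b ω (T22.toZ p) (T22.toZ p') := by
  obtain ⟨f1, f2, f3, f4, f5, f6⟩ := hf
  have d1 := T22.toZ_diff p f1
  have d2 := T22.toZ_diff p' f2
  have e1 := toZ_sum p f1
  have e2 := toZ_sum p' f2
  refine ⟨ho, by omega, by omega, ?_⟩
  rw [d1, d2, e1, e2]
  rintro ⟨⟨g1, g2, g3⟩, ⟨g4, g5, g6⟩⟩
  exact hs ⟨⟨by omega, by omega, by omega⟩, ⟨by omega, by omega, by omega⟩⟩

/-- reached from the left bank -/
def RB (a b : ℕ) (ω : Conf) (p : ℤ × ℤ) : Prop :=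
  (p.1 = a ∧ 0 ≤ p.2) ∨ ((p.1 + p.2) % 2 = 1 ∧
    ∃ x : ℤ × ℤ, x.1 - x.2 = a ∧ 1 ≤ x.1 + x.2 ∧ ReflTransGen (Adj5 a b ω) x (T22.toZ p))

theorem RB_step {a b : ℕ} {ω : Conf} {p p' : ℤ × ℤ} (ho : OpenAdj ω (T22.toZ p) (T22.toZ p'))
    (hf : (p.1 + p.2) % 2 = 1 ∧ (p'.1 + p'.2) % 2 = 1 ∧ 0 ≤ p.1 ∧ 0 ≤ p'.1 ∧
      p.1 ≤ a + b + 3 ∧ p'.1 ≤ a + b + 3)
    (hs : ¬ ((a ≤ p.1 ∧ p.1 ≤ a + 3 ∧ 0 ≤ p.2) ∧ (a ≤ p'.1 ∧ p'.1 ≤ a + 3 ∧ 0 ≤ p'.2))) :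
    RB a b ω p → RB a b ω p' := by
  have hadj := adj_of ho hf hs
  obtain ⟨f1, f2, f3, f4, f5, f6⟩ := hf
  have d1 := T22.toZ_diff p f1
  have e1 := toZ_sum p f1
  rintro (⟨h1, h2⟩ | ⟨h1, x, hx1, hx2, h2⟩)
  · exact Or.inr ⟨f2, T22.toZ p, by omega, by omega, ReflTransGen.single hadj⟩
  · exact Or.inr ⟨f2, x, hx1, hx2, h2.tail hadj⟩

/-- reached from the tip -/
def RT (a b : ℕ) (ω : Conf) (p : ℤ × ℤ) : Prop :=
  (p.1 + p.2) % 2 = 1 ∧ ReflTransGen (Adj5 a b ω) (tip5 a) (T22.toZ p)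

theorem RT_step {a b : ℕ} {ω : Conf} {p p' : ℤ × ℤ} (ho : OpenAdj ω (T22.toZ p) (T22.toZ p'))
    (hf : (p.1 + p.2) % 2 = 1 ∧ (p'.1 + p'.2) % 2 = 1 ∧ 0 ≤ p.1 ∧ 0 ≤ p'.1 ∧
      p.1 ≤ a + b + 3 ∧ p'.1 ≤ a + b + 3)
    (hs : ¬ ((a ≤ p.1 ∧ p.1 ≤ a + 3 ∧ 0 ≤ p.2) ∧ (a ≤ p'.1 ∧ p'.1 ≤ a + 3 ∧ 0 ≤ p'.2))) :
    RT a b ω p → RT a b ω p' := by
  rintro ⟨h1, h2⟩
  exact ⟨hf.2.1, h2.tail (adj_of ho hf hs)⟩

theorem RB_wall {a b : ℕ} {ω : Conf} (hc : ω ∉ BankR a b) (p : ℤ × ℤ)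
    (hp : p.1 = a + b + 3) : ¬ RB a b ω p := by
  rintro (⟨h1, h2⟩ | ⟨h1, x, hx1, hx2, h2⟩)
  · omega
  · exact hc ⟨x, T22.toZ p, hx1, hx2, by rw [T22.toZ_diff p h1, hp], h2⟩

theorem RT_wall {a b : ℕ} {ω : Conf} (hc : ω ∉ TipR a b) (p : ℤ × ℤ)
    (hp : p.1 = a + b + 3) : ¬ RT a b ω p := by
  rintro ⟨h1, h2⟩
  exact hc ⟨T22.toZ p, by rw [T22.toZ_diff p h1, hp], h2⟩

theorem c6 : S_C6 := by
  intro a b M ω ha hb
  have ha2 : (a : ℤ) % 2 = 1 := by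
    obtain ⟨c, rfl⟩ := ha
    omega
  constructor
  · intro h
    by_contra hc
    have hcT : ω ∉ TipR a b := fun h => hc (Or.inl h)
    have hcB : ω ∉ BankR a b := fun h => hc (Or.inr h)
    have wired : ∀ p : ℤ × ℤ, p.1 = a + b + 3 → ¬ (RT a b ω p ∨ RB a b ω p) := by
      rintro p hp (h | h)
      · exact RT_wall hcT p hp h
      · exact RB_wall hcB p hp h
    have key : (RT a b ω ((a : ℤ) + 2, 0) ∨ RB a b ω ((a : ℤ) + 2, 0)) ↔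
        (RT a b ω ((a : ℤ) + b + 3, 0) ∨ RB a b ω ((a : ℤ) + b + 3, 0)) := by
      refine T22.eqvGen_iff (fun p => RT a b ω p ∨ RB a b ω p) ?_ h
      intro p p' h1
      rcases gp_gadj h1 with ⟨g1, g2, g3⟩ | ⟨g1, g2, g3, g4⟩ | ⟨g1, g2⟩
      · have ho := T22.gadj_open g1
        have ho' := T22.openAdj_symm ho
        have g2' : (p'.1 + p'.2) % 2 = 1 ∧ (p.1 + p.2) % 2 = 1 ∧ 0 ≤ p'.1 ∧ 0 ≤ p.1 ∧
            p'.1 ≤ a + b + 3 ∧ p.1 ≤ a + b + 3 :=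
          ⟨g2.2.1, g2.1, g2.2.2.2.1, g2.2.2.1, g2.2.2.2.2.2, g2.2.2.2.2.1⟩
        have g3' : ¬ ((a ≤ p'.1 ∧ p'.1 ≤ a + 3 ∧ 0 ≤ p'.2) ∧
            (a ≤ p.1 ∧ p.1 ≤ a + 3 ∧ 0 ≤ p.2)) := fun h => g3 ⟨h.2, h.1⟩
        exact ⟨Or.imp (RT_step ho g2 g3) (RB_step ho g2 g3),
          Or.imp (RT_step ho' g2' g3') (RB_step ho' g2' g3')⟩
      · exact ⟨fun _ => Or.inr (Or.inl ⟨g2, g4⟩), fun _ => Or.inr (Or.inl ⟨g1, g3⟩)⟩
      · exact ⟨fun h => absurd h (wired p g1), fun h => absurd h (wired p' g2)⟩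
    have hP1 : RT a b ω ((a : ℤ) + 2, 0) := by
      refine ⟨by dsimp only; omega, ?_⟩
      rw [tip_eq a ha]
    exact wired _ rfl (key.1 (Or.inl hP1))
  · intro h
    by_contra hc
    have key : RB a b ω ((a : ℤ), 0) ↔ RB a b ω ((a : ℤ) + b + 3, 0) := by
      refine T22.eqvGen_iff (RB a b ω) ?_ h
      intro p p' h1
      rcases gp_gadj h1 with ⟨g1, g2, g3⟩ | ⟨g1, g2, g3, g4⟩ | ⟨g1, g2⟩
      · have ho := T22.gadj_open g1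
        have ho' := T22.openAdj_symm ho
        have g2' : (p'.1 + p'.2) % 2 = 1 ∧ (p.1 + p.2) % 2 = 1 ∧ 0 ≤ p'.1 ∧ 0 ≤ p.1 ∧
            p'.1 ≤ a + b + 3 ∧ p.1 ≤ a + b + 3 :=
          ⟨g2.2.1, g2.1, g2.2.2.2.1, g2.2.2.1, g2.2.2.2.2.2, g2.2.2.2.2.1⟩
        have g3' : ¬ ((a ≤ p'.1 ∧ p'.1 ≤ a + 3 ∧ 0 ≤ p'.2) ∧
            (a ≤ p.1 ∧ p.1 ≤ a + 3 ∧ 0 ≤ p.2)) := fun h => g3 ⟨h.2, h.1⟩
        exact ⟨RB_step ho g2 g3, RB_step ho' g2' g3'⟩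
      · exact ⟨fun _ => Or.inl ⟨g2, g4⟩, fun _ => Or.inl ⟨g1, g3⟩⟩
      · exact ⟨fun h => absurd h (RB_wall hc p g1), fun h => absurd h (RB_wall hc p' g2)⟩
    have hP1 : RB a b ω ((a : ℤ), 0) := Or.inl ⟨rfl, le_refl _⟩
    exact RB_wall hc _ rfl (key.1 hP1)

/-! ### the other direction -/

theorem gp_mono {lo hi t0 t1 s0 s1 : ℤ} (h0 : s0 ≤ t0) (h1 : t1 ≤ s1) {ω : Conf} {p p' : ℤ × ℤ}
    (h : GP lo hi t0 t1 ω p p') : GP lo hi s0 s1 ω p p' := by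
  obtain ⟨i, r, h1, h2, h3, h4, h5, h6⟩ := h
  exact ⟨i, r, h1, h2, by omega, by omega, h5, h6⟩

theorem ff_mono {a b M M' : ℕ} (hM : M ≤ M') {ω : Conf} {p p' : ℤ × ℤ}
    (h : FF5 a b M ω p p') : FF5 a b M' ω p p' := by
  rcases h with (h | h) | (h | h) | (h | h)
  · exact Or.inl (Or.inl (gp_mono (by omega) (le_refl _) h))
  · exact Or.inl (Or.inr h)
  · exact Or.inr (Or.inl (Or.inl (gp_mono (le_refl _) (by omega) h)))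
  · exact Or.inr (Or.inl (Or.inr h))
  · exact Or.inr (Or.inr (Or.inl (gp_mono (le_refl _) (by omega) h)))
  · exact Or.inr (Or.inr (Or.inr h))

theorem c7m : S_C7m := by
  intro a b M M' ω p p' hM h
  exact h.mono (fun _ _ => ff_mono hM)

theorem gadj_ff {a b M : ℕ} {ω : Conf} {p p' : ℤ × ℤ} (h : GAdj (a+b+3) M ω p p')
    (hs : ¬ ((a ≤ p.1 ∧ p.1 ≤ a + 3 ∧ 0 ≤ p.2) ∧ (a ≤ p'.1 ∧ p'.1 ≤ a + 3 ∧ 0 ≤ p'.2))) :
    FF5 a b M ω p p' := by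
  obtain ⟨i, r, h1, h2, h3, h4, h5, h6⟩ := h
  push_cast at h2
  by_cases hr : r < 0
  · exact Or.inl (Or.inl ⟨i, r, h1, by push_cast; omega, h3, hr, h5, h6⟩)
  · have hi : i ≤ a ∨ a + 4 ≤ i := by
      by_contra hcon
      apply hs
      rcases h6 with ⟨h6, rfl, rfl⟩ | ⟨h6, rfl, rfl⟩
      · dsimp only
        exact ⟨⟨by omega, by omega, by omega⟩, ⟨by omega, by omega, by omega⟩⟩
      · dsimp only
        exact ⟨⟨by omega, by omega, by omega⟩, ⟨by omega, by omega, by omega⟩⟩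
    rcases hi with hi | hi
    · exact Or.inr (Or.inl (Or.inl ⟨i, r, h1, hi, by omega, h4, h5, h6⟩))
    · exact Or.inr (Or.inr (Or.inl ⟨i, r, by push_cast; omega, by push_cast; omega, by omega, h4,
        h5, h6⟩))

/-- an open edge inside the slit strip belongs to a large window -/
theorem open_ff (a b : ℕ) (ω : Conf) (x y : ℤ × ℤ) (h : Adj5 a b ω x y) (M : ℕ)
    (hM : |x.1 + x.2| + |y.1 + y.2| + 1 ≤ M) :
    EqvGen (FF5 a b M ω) (x.1 - x.2, x.1 + x.2 - 1) (y.1 - y.2, y.1 + y.2 - 1) := by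
  obtain ⟨h, ⟨hx0, hx⟩, ⟨hy0, hy⟩, hs⟩ := h
  have hb1 := abs_le.mp (le_refl |x.1 + x.2|)
  have hb2 := abs_le.mp (le_refl |y.1 + y.2|)
  obtain ⟨x1, x2⟩ := x
  obtain ⟨y1, y2⟩ := y
  dsimp only at *
  rcases h with ⟨e, h⟩ | ⟨e, h⟩ | ⟨e, h⟩ | ⟨e, h⟩
  · simp only [Prod.mk.injEq] at e
    obtain ⟨rfl, rfl⟩ := e
    refine EqvGen.rel _ _ (gadj_ff (T22.gadj_h (a+b+3) M ω _ _ h (by omega)
      (by push_cast; omega) (by omega) (by omega)) ?_)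
    dsimp only
    omega
  · simp only [Prod.mk.injEq] at e
    obtain ⟨rfl, rfl⟩ := e
    refine EqvGen.symm _ _ (EqvGen.rel _ _ (gadj_ff (T22.gadj_h (a+b+3) M ω _ _ h (by omega)
      (by push_cast; omega) (by omega) (by omega)) ?_))
    dsimp only
    omega
  · simp only [Prod.mk.injEq] at e
    obtain ⟨rfl, rfl⟩ := e
    refine EqvGen.rel _ _ (gadj_ff (T22.gadj_v (a+b+3) M ω _ _ h (by omega)
      (by push_cast; omega) (by omega) (by omega)) ?_)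
    dsimp only
    omega
  · simp only [Prod.mk.injEq] at e
    obtain ⟨rfl, rfl⟩ := e
    refine EqvGen.symm _ _ (EqvGen.rel _ _ (gadj_ff (T22.gadj_v (a+b+3) M ω _ _ h (by omega)
      (by push_cast; omega) (by omega) (by omega)) ?_))
    dsimp only
    omega

theorem path_ff (a b : ℕ) (ω : Conf) (x y : ℤ × ℤ) (h : ReflTransGen (Adj5 a b ω) x y) :
    ∃ M : ℕ, EqvGen (FF5 a b M ω) (x.1 - x.2, x.1 + x.2 - 1) (y.1 - y.2, y.1 + y.2 - 1) := by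
  induction h with
  | refl => exact ⟨0, EqvGen.refl _⟩
  | tail _ hs ih =>
    rename_i y z _
    obtain ⟨M, ih⟩ := ih
    obtain ⟨M', hM'⟩ : ∃ M' : ℕ, M ≤ M' ∧ |y.1 + y.2| + |z.1 + z.2| + 1 ≤ (M' : ℤ) := by
      refine ⟨M + (|y.1 + y.2| + |z.1 + z.2| + 1).toNat, by omega, ?_⟩
      have := Int.self_le_toNat (|y.1 + y.2| + |z.1 + z.2| + 1)
      push_cast
      push_cast at this
      omega
    exact ⟨M', EqvGen.trans _ _ _ (ih.mono (fun _ _ => ff_mono hM'.1))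
      (open_ff a b ω y z hs M' hM'.2)⟩

theorem c7 : S_C7 := by
  intro a b ω ha hb
  constructor
  · rintro ⟨y, hy, h⟩
    obtain ⟨M, hM⟩ := path_ff a b ω _ _ h
    have htip : ((tip5 a).1 - (tip5 a).2, (tip5 a).1 + (tip5 a).2 - 1) =
        ((a : ℤ) + 2, (0 : ℤ)) := by
      obtain ⟨k, hk⟩ := ha
      unfold tip5
      ext
      · dsimp only; omega
      · dsimp only; omega
    rw [htip] at hM
    refine ⟨M, EqvGen.trans _ _ _ hM (EqvGen.rel _ _ (Or.inl (Or.inr ⟨?_, ?_⟩)))⟩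
    · dsimp only
      push_cast
      omega
    · dsimp only
      push_cast
      omega
  · rintro ⟨x, y, hx, hx1, hy, h⟩
    obtain ⟨M, hM⟩ := path_ff a b ω _ _ h
    refine ⟨M, EqvGen.trans _ _ _ (EqvGen.rel _ _
      (Or.inr (Or.inl (Or.inr ⟨rfl, ?_, le_refl _, ?_⟩))))
      (EqvGen.trans _ _ _ hM (EqvGen.rel _ _ (Or.inl (Or.inr ⟨?_, ?_⟩))))⟩
    · exact hx
    · dsimp only; omega
    · dsimp only
      push_cast
      omega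
    · dsimp only
      push_cast
      omega

end Pool.Agent.Y328.TL
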