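import Pool.Agent.Y996.TL.Stm
import Pool.Agent.H981R2.TP.D2

/-! Project TL, task D: the asymptotics of the closed formula with the explicit constant. -/

set_option autoImplicit false

namespace Pool.Agent.Y328.TL

open Pool.Agent.H988R2.Perc hiding X
open Pool.Agent.H981R2.TP
open Pool.Agent.Y996.TL
open Finset Filter Topology

/-- the constant of the even product -/
noncomputable def cE : ℝ :=
  3 / 4 * (Real.Gamma (1 / 2) / Real.Gamma (2 / 3)) * (2 : ℝ) ^ ((1:ℝ)/6)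

theorem cE_pos : 0 < cE := by
  have h1 := Real.Gamma_pos_of_pos (by norm_num : (0 : ℝ) < 1 / 2)
  have h2 := Real.Gamma_pos_of_pos (by norm_num : (0 : ℝ) < 2 / 3)
  unfold cE
  positivity

theorem D1_explicit :
    Tendsto (fun n : ℕ => chi (2*n+1) / chi (2*n) / ((81/16 : ℝ)^n * (n:ℝ)^((1:ℝ)/6))) atTop
      (𝓝 cE) := by
  have e0 : cE = 3 / 4 * (2 / 2) * (Real.Gamma (1 / 2) / Real.Gamma (2 / 3)) *
      (2 : ℝ) ^ ((1:ℝ)/6) := by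
    unfold cE
    ring
  rw [e0]
  have h1 := D2_lin 3 1 4 1 (by norm_num)
  have h2 := D2_lin 2 (1 / 2) 2 (2 / 3) (by norm_num)
  have h3 := (D2_ratio (2 / 3) (by norm_num)).comp D2_two
  refine (((h1.mul h2).mul h3).mul_const ((2 : ℝ) ^ ((1:ℝ)/6))).congr' ?_
  filter_upwards [eventually_gt_atTop 0] with n hn
  have hn' : (0 : ℝ) < n := by exact_mod_cast hn
  rw [t25_succ, mul_div_cancel_left₀ _ (chi_pos (2 * n)).ne', D2_even]
  simp only [Function.comp_apply]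
  rw [prod_range_succ]
  have e3 : ((2 * n : ℕ) : ℝ) ^ ((2 / 3 : ℝ) - 1 / 2) =
      (2 : ℝ) ^ ((1:ℝ)/6) * (n : ℝ) ^ ((1:ℝ)/6) := by
    push_cast
    rw [Real.mul_rpow (by norm_num) hn'.le]
    norm_num
  rw [e3]
  have h4 : 0 < (2 : ℝ) ^ ((1:ℝ)/6) := by positivity
  have h5 : 0 < (n : ℝ) ^ ((1:ℝ)/6) := by positivity
  push_cast
  have h6 : (0 : ℝ) < 2 * n + 2 / 3 := by positivity
  have h7 : (0 : ℝ) < 1 / 2 + 2 * n := by positivity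
  field_simp
  ring

theorem formula (m k : ℕ) (hm : 0 < m) (hk : 0 < k) :
    form3 (2 * m + 1) (2 * k + 1) *
      (((2 * m + 1 : ℕ) : ℝ) * ((2 * k + 1 : ℕ) : ℝ) *
        (((2 * m + 1 : ℕ) : ℝ) + ((2 * k + 1 : ℕ) : ℝ))) ^ ((1:ℝ)/6) =
    9 * (chi (2*m+2) / chi (2*m+1) / ((81/16 : ℝ)^m / (m:ℝ)^((1:ℝ)/6))) *
      (chi (2*k+2) / chi (2*k+1) / ((81/16 : ℝ)^k / (k:ℝ)^((1:ℝ)/6))) *
      (chi (2*(m+k+2)+1) / chi (2*(m+k+2)) /
        ((81/16 : ℝ)^(m+k+2) * ((m+k+2 : ℕ):ℝ)^((1:ℝ)/6)))⁻¹ * (16/81)^2 *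
      ((2 + 1 / (m:ℝ)) * (2 + 1 / (k:ℝ)) * (2 - 2 / ((m+k+2 : ℕ):ℝ))) ^ ((1:ℝ)/6) := by
  have hm' : (0:ℝ) < m := by exact_mod_cast hm
  have hk' : (0:ℝ) < k := by exact_mod_cast hk
  have hs : (0:ℝ) < ((m+k+2 : ℕ):ℝ) := by positivity
  have e1 : ((2 * m + 1 : ℕ) : ℝ) * ((2 * k + 1 : ℕ) : ℝ) *
        (((2 * m + 1 : ℕ) : ℝ) + ((2 * k + 1 : ℕ) : ℝ)) =
      ((m:ℝ) * (k:ℝ) * ((m+k+2 : ℕ):ℝ)) *
        ((2 + 1 / (m:ℝ)) * (2 + 1 / (k:ℝ)) * (2 - 2 / ((m+k+2 : ℕ):ℝ))) := by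
    push_cast
    have : (m:ℝ) + k + 2 ≠ 0 := by positivity
    field_simp
    ring
  have hnn : (0:ℝ) ≤ (2 + 1 / (m:ℝ)) * (2 + 1 / (k:ℝ)) * (2 - 2 / ((m+k+2 : ℕ):ℝ)) := by
    have h1 : 2 / ((m+k+2 : ℕ):ℝ) ≤ 1 := by
      rw [div_le_one hs]
      push_cast
      linarith
    have h3 : (0:ℝ) ≤ 2 - 2 / ((m+k+2 : ℕ):ℝ) := by linarith
    positivity
  rw [e1, Real.mul_rpow (by positivity) hnn, Real.mul_rpow (by positivity) hs.le,
    Real.mul_rpow hm'.le hk'.le]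
  have p1 : (0:ℝ) < (m:ℝ)^((1:ℝ)/6) := Real.rpow_pos_of_pos hm' _
  have p2 : (0:ℝ) < (k:ℝ)^((1:ℝ)/6) := Real.rpow_pos_of_pos hk' _
  have p3 : (0:ℝ) < ((m+k+2 : ℕ):ℝ)^((1:ℝ)/6) := Real.rpow_pos_of_pos hs _
  have e2 : form3 (2 * m + 1) (2 * k + 1) = 9 * (chi (2*m+2) / chi (2*m+1)) *
      (chi (2*k+2) / chi (2*k+1)) * (chi (2*(m+k+2)+1) / chi (2*(m+k+2)))⁻¹ := by
    unfold form3
    rw [show 2 * m + 1 + (2 * k + 1) + 2 = 2 * (m + k + 2) by ring,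
      show 2 * m + 1 + (2 * k + 1) + 3 = 2 * (m + k + 2) + 1 by ring,
      show 2 * k + 1 + 1 = 2 * k + 2 by ring, show 2 * m + 1 + 1 = 2 * m + 2 by ring, inv_div]
    simp only [div_eq_mul_inv, mul_inv]
    ring
  rw [e2]
  generalize chi (2*m+2) / chi (2*m+1) = x
  generalize chi (2*k+2) / chi (2*k+1) = y
  generalize chi (2*(m+k+2)+1) / chi (2*(m+k+2)) = z
  generalize ((2 + 1 / (m:ℝ)) * (2 + 1 / (k:ℝ)) * (2 - 2 / ((m+k+2 : ℕ):ℝ))) ^ ((1:ℝ)/6) = w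
  generalize (m:ℝ)^((1:ℝ)/6) = a at *
  generalize (k:ℝ)^((1:ℝ)/6) = b at *
  generalize ((m+k+2 : ℕ):ℝ)^((1:ℝ)/6) = c at *
  have hp : ((81/16 : ℝ)^(m+k+2)) = (81/16)^m * (81/16)^k * (81/16)^2 := by
    rw [pow_add, pow_add]
  rw [hp]
  have q1 : ((81/16 : ℝ))^m ≠ 0 := by positivity
  have q2 : ((81/16 : ℝ))^k ≠ 0 := by positivity
  generalize ((81/16 : ℝ))^m = P at *
  generalize ((81/16 : ℝ))^k = Q at *
  rw [inv_div, div_eq_mul_inv _ z]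
  field_simp

theorem d : S_D := by
  intro a b ha hb ta tb
  have tm : Tendsto (fun n => a n / 2) atTop atTop :=
    Filter.tendsto_atTop.2 fun K => by
      filter_upwards [ta.eventually_ge_atTop (2 * K)] with n hn
      omega
  have tk : Tendsto (fun n => b n / 2) atTop atTop :=
    Filter.tendsto_atTop.2 fun K => by
      filter_upwards [tb.eventually_ge_atTop (2 * K)] with n hn
      omega
  have ts : Tendsto (fun n => a n / 2 + b n / 2 + 2) atTop atTop :=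
    tendsto_atTop_mono (fun n => by omega) tm
  have l1 := D2_explicit.comp tm
  have l2 := D2_explicit.comp tk
  have l3 := (D1_explicit.comp ts).inv₀ cE_pos.ne'
  have l0 : Tendsto (fun n => 1 / ((a n / 2 : ℕ) : ℝ)) atTop (𝓝 0) :=
    (tendsto_one_div_atTop_nhds_zero_nat (𝕜 := ℝ)).comp tm
  have l4 : Tendsto (fun n => 1 / ((b n / 2 : ℕ) : ℝ)) atTop (𝓝 0) :=
    (tendsto_one_div_atTop_nhds_zero_nat (𝕜 := ℝ)).comp tk
  have l5 : Tendsto (fun n => 1 / ((a n / 2 + b n / 2 + 2 : ℕ) : ℝ)) atTop (𝓝 0) :=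
    (tendsto_one_div_atTop_nhds_zero_nat (𝕜 := ℝ)).comp ts
  have l5' : Tendsto (fun n => 2 / ((a n / 2 + b n / 2 + 2 : ℕ) : ℝ)) atTop (𝓝 0) := by
    have h := l5.const_mul 2
    rw [mul_zero] at h
    refine h.congr fun n => ?_
    ring
  have l6 : Tendsto (fun n => ((2 + 1 / ((a n / 2 : ℕ):ℝ)) * (2 + 1 / ((b n / 2 : ℕ):ℝ)) *
      (2 - 2 / ((a n / 2 + b n / 2 + 2 : ℕ):ℝ))) ^ ((1:ℝ)/6)) atTop
      (𝓝 ((8:ℝ) ^ ((1:ℝ)/6))) := by
    have h := (((tendsto_const_nhds (x := (2:ℝ))).add l0).mul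
      ((tendsto_const_nhds (x := (2:ℝ))).add l4)).mul
      ((tendsto_const_nhds (x := (2:ℝ))).sub l5')
    have h' : (2 + 0) * (2 + 0) * (2 - 0) = (8:ℝ) := by norm_num
    rw [h'] at h
    exact h.rpow_const (Or.inl (by norm_num))
  have l7 := (((((tendsto_const_nhds (x := (9:ℝ))).mul l1).mul l2).mul l3).mul
    (tendsto_const_nhds (x := ((16/81)^2:ℝ)))).mul l6
  have e8 : (8:ℝ) ^ ((1:ℝ)/6) = Real.sqrt 2 := by
    rw [Real.sqrt_eq_rpow, show (8:ℝ) = 2 ^ (3:ℝ) by norm_num, ← Real.rpow_mul (by norm_num)]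
    norm_num
  have e9 : ((2:ℝ) ^ ((1:ℝ)/6)) ^ 3 = Real.sqrt 2 := by
    rw [Real.sqrt_eq_rpow, ← Real.rpow_natCast, ← Real.rpow_mul (by norm_num)]
    norm_num
  have econst : 9 * cO * cO * cE⁻¹ * (16/81)^2 * (8:ℝ) ^ ((1:ℝ)/6) =
      2 * Real.sqrt Real.pi * Real.Gamma (5/3) / Real.Gamma (1/3) ^ 2 := by
    have h53 : Real.Gamma (5/3) = 2/3 * Real.Gamma (2/3) := by
      rw [show (5:ℝ)/3 = 2/3 + 1 by norm_num, Real.Gamma_add_one (by norm_num)]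
    rw [h53, e8]
    unfold cO cE
    rw [Real.Gamma_one_half_eq]
    have h2 : (0:ℝ) < (2:ℝ)^((1:ℝ)/6) := Real.rpow_pos_of_pos (by norm_num) _
    have h3 : (0:ℝ) < Real.Gamma (1/3) := Real.Gamma_pos_of_pos (by norm_num)
    have h4 : (0:ℝ) < Real.Gamma (2/3) := Real.Gamma_pos_of_pos (by norm_num)
    have h5 : (0:ℝ) < Real.sqrt Real.pi := Real.sqrt_pos.2 Real.pi_pos
    rw [← e9]
    generalize (2:ℝ)^((1:ℝ)/6) = t at *
    field_simp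
    norm_num
  rw [econst] at l7
  refine l7.congr' ?_
  filter_upwards [tm.eventually_gt_atTop 0, tk.eventually_gt_atTop 0] with n hn1 hn2
  have hA : 2 * (a n / 2) + 1 = a n := Nat.two_mul_div_two_add_one_of_odd (ha n)
  have hB : 2 * (b n / 2) + 1 = b n := Nat.two_mul_div_two_add_one_of_odd (hb n)
  have h := formula (a n / 2) (b n / 2) hn1 hn2
  rw [hA, hB] at h
  rw [h]
  simp only [Function.comp_apply]
  rw [hA, hB]

end Pool.Agent.Y328.TL
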